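import Mathlib
import Pool.Agent.W126.SplitConv

set_option autoImplicit false

/-! The least upper bound `f H` of the treewidths of the graphs with no minor `H` satisfies
`f (H₁ ⊕ H₂) ≤ 1000 (max (f H₁) (f H₂) + 1)` for the disjoint union of any two graphs. -/

namespace Pool.Agent.Results.MP_14fa4b_co.UnionBound

/-- `G` has a tree decomposition of width at most `w`: a tree `T` and bags covering all vertices and
edges, such that the nodes whose bag contains a given vertex induce a connected subgraph of `T`, all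
bags having at most `w + 1` vertices -/
def TwLE {V : Type} (G : SimpleGraph V) (w : ℕ) : Prop :=
  ∃ m : ℕ, ∃ T : SimpleGraph (Fin m), ∃ bag : Fin m → Set V,
    T.IsTree ∧ (∀ v, ∃ i, v ∈ bag i) ∧
    (∀ u v, G.Adj u v → ∃ i, u ∈ bag i ∧ v ∈ bag i) ∧
    (∀ v, (T.induce {i | v ∈ bag i}).Connected) ∧
    ∀ i, (bag i).ncard ≤ w + 1

/-- the treewidth -/
noncomputable def tw {V : Type} (G : SimpleGraph V) : ℕ := sInf {w | TwLE G w}

/-- `H` is a minor of `G`: there are pairwise disjoint connected branch sets, one for each vertex of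
`H`, with an edge of `G` between any two branch sets belonging to adjacent vertices of `H` -/
def IsMinor {W V : Type} (H : SimpleGraph W) (G : SimpleGraph V) : Prop :=
  ∃ B : W → Set V, (∀ x, (G.induce (B x)).Connected) ∧
    (∀ x y, x ≠ y → Disjoint (B x) (B y)) ∧
    ∀ x y, H.Adj x y → ∃ u ∈ B x, ∃ v ∈ B y, G.Adj u v

/-- `f H`: the supremum (possibly `⊤`) of the treewidths of the finite graphs with no minor `H` -/
noncomputable def f {W : Type} (H : SimpleGraph W) : ℕ∞ :=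
  ⨆ (V : Type) (_ : Fintype V) (G : SimpleGraph V) (_ : ¬ IsMinor H G), (tw G : ℕ∞)

lemma tw_le_f {W : Type} (H : SimpleGraph W) (V : Type) [inst : Fintype V] (G : SimpleGraph V)
    (h : ¬ IsMinor H G) : (tw G : ℕ∞) ≤ f H := by
  unfold f
  exact le_iSup_of_le V (le_iSup_of_le inst (le_iSup_of_le G (le_iSup_of_le h le_rfl)))

lemma exists_twLE {V : Type} [Fintype V] (G : SimpleGraph V) : TwLE G (tw G) := by
  classical
  have h : {w | TwLE G w}.Nonempty := by
    obtain ⟨m, T, bag, h1, h2, h3, h4, h5⟩ := Pool.Agent.W126.Split.td_of_bw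
      (Pool.Agent.W126.Split.bw_card (G := G) Finset.univ)
    exact ⟨_, m, T, bag, h1, h2, h3, h4, fun i => (h5 i).trans (Nat.le_succ _)⟩
  exact Nat.sInf_mem h

/-- a minor of an induced subgraph, with branch sets in the whole graph -/
lemma lift_minor {W V : Type} {H : SimpleGraph W} {G : SimpleGraph V} {A : Set V}
    (h : IsMinor H (G.induce A)) :
    ∃ B : W → Set V, (∀ x, B x ⊆ A) ∧ (∀ x, (G.induce (B x)).Connected) ∧
      (∀ x y, x ≠ y → Disjoint (B x) (B y)) ∧
      ∀ x y, H.Adj x y → ∃ u ∈ B x, ∃ v ∈ B y, G.Adj u v := by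
  obtain ⟨B, h1, h2, h3⟩ := h
  refine ⟨fun x => Subtype.val '' (B x), ?_, ?_, ?_, ?_⟩
  · rintro x _ ⟨y, _, rfl⟩
    exact y.2
  · intro x
    let φ : (G.induce A).induce (B x) →g G.induce (Subtype.val '' (B x)) :=
      { toFun := fun y => ⟨y.1.1, ⟨y.1, y.2, rfl⟩⟩
        map_rel' := fun {a b} hab => hab }
    have hφ : Function.Surjective φ := by
      rintro ⟨_, y, hy, rfl⟩
      exact ⟨⟨y, hy⟩, rfl⟩
    exact (h1 x).map φ hφ
  · intro x y hxy
    rw [Set.disjoint_left]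
    rintro _ ⟨a, ha, rfl⟩ ⟨b, hb, hab⟩
    have hab' : b = a := Subtype.ext hab
    subst hab'
    exact (Set.disjoint_left.1 (h2 x y hxy)) ha hb
  · intro x y hxy
    obtain ⟨u, hu, v, hv, huv⟩ := h3 x y hxy
    exact ⟨u, ⟨u, hu, rfl⟩, v, ⟨v, hv, rfl⟩, huv⟩

/-- the main bound for one graph -/
lemma main {W₁ W₂ : Type} (H₁ : SimpleGraph W₁) (H₂ : SimpleGraph W₂) (a : ℕ)
    (ha : f H₁ ≤ a) (hb : f H₂ ≤ a) (V : Type) [Fintype V] (G : SimpleGraph V)
    (hG : ¬ IsMinor (H₁ ⊕g H₂) G) : tw G ≤ 1000 * (a + 1) := by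
  classical
  by_contra hlt
  push Not at hlt
  have h0 : ¬ Pool.Agent.W126.Split.Bw G Finset.univ (1000 * (a + 1)) := by
    intro h
    obtain ⟨m, T, bag, h1, h2, h3, h4, h5⟩ := Pool.Agent.W126.Split.td_of_bw h
    have h6 : TwLE G (1000 * (a + 1)) :=
      ⟨m, T, bag, h1, h2, h3, h4, fun i => (h5 i).trans (Nat.le_succ _)⟩
    exact absurd (Nat.sInf_le h6) (not_le.2 hlt)
  obtain ⟨S, hS1, hS2⟩ := Pool.Agent.W126.Split.split (s := a + 1) (by omega) le_rfl h0
  -- a set of large treewidth contains the minor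
  have key : ∀ {W : Type} (H : SimpleGraph W), f H ≤ a → ∀ (A : Set V) (S : Finset V),
      (S : Set V) = A → ¬ Pool.Agent.W126.Split.Bw G S (a + 1) → IsMinor H (G.induce A) := by
    intro W H hH A S hSA hS
    by_contra hno
    apply hS
    have h1 := (tw_le_f H A (G.induce A) hno).trans hH
    have h2 : tw (G.induce A) ≤ a := by exact_mod_cast h1
    obtain ⟨m, T, bag, h1, h2', h3, h4, h5⟩ := exists_twLE (G.induce A)
    exact Pool.Agent.W126.Split.bw_of_td A S hSA
      ⟨m, T, bag, h1, h2', h3, h4, fun i => (h5 i).trans (by omega)⟩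
  obtain ⟨B₁, s1, c1, d1, e1⟩ := lift_minor (key H₁ ha (S : Set V) S rfl hS1)
  obtain ⟨B₂, s2, c2, d2, e2⟩ := lift_minor (key H₂ hb ((S : Set V)ᶜ) Sᶜ
    (Finset.coe_compl S) hS2)
  have hd : ∀ x y, Disjoint (B₁ x) (B₂ y) := fun x y =>
    Set.disjoint_left.2 fun v hv hv' => (s2 y hv') (s1 x hv)
  apply hG
  refine ⟨Sum.elim B₁ B₂, ?_, ?_, ?_⟩
  · rintro (x | x)
    · exact c1 x
    · exact c2 x
  · rintro (x | x) (y | y) hxy
    · exact d1 x y (fun h => hxy (by rw [h]))
    · exact hd x y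
    · exact (hd y x).symm
    · exact d2 x y (fun h => hxy (by rw [h]))
  · rintro (x | x) (y | y) hxy
    · exact e1 x y (by simpa using hxy)
    · simp at hxy
    · simp at hxy
    · exact e2 x y (by simpa using hxy)

/-- For the disjoint union of any two graphs `H₁`, `H₂` one has
`f (H₁ ⊕ H₂) ≤ 1000 (max (f H₁) (f H₂) + 1)`, and hence `f (H₁ ⊕ H₂) ≤ 2000 (f H₁ + f H₂)`
unless `f H₁ = f H₂ = 0`. -/
theorem result {W₁ W₂ : Type} (H₁ : SimpleGraph W₁) (H₂ : SimpleGraph W₂) :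
    f (H₁ ⊕g H₂) ≤ 1000 * (max (f H₁) (f H₂) + 1) ∧
      (1 ≤ f H₁ + f H₂ → f (H₁ ⊕g H₂) ≤ 2000 * (f H₁ + f H₂)) := by
  have h : f (H₁ ⊕g H₂) ≤ 1000 * (max (f H₁) (f H₂) + 1) := by
    rcases eq_or_ne (max (f H₁) (f H₂)) ⊤ with ht | ht
    · rw [ht]
      simp
    · obtain ⟨a, ha⟩ := ENat.ne_top_iff_exists.1 ht
      rw [← ha]
      have h1 : f H₁ ≤ a := by rw [ha]; exact le_max_left _ _
      have h2 : f H₂ ≤ a := by rw [ha]; exact le_max_right _ _
      conv_lhs => unfold f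
      refine iSup_le fun V => iSup_le fun inst => iSup_le fun G => iSup_le fun hG => ?_
      have := main H₁ H₂ a h1 h2 V G hG
      exact_mod_cast this
  refine ⟨h, fun h1 => h.trans ?_⟩
  have h2 : max (f H₁) (f H₂) + 1 ≤ (f H₁ + f H₂) + (f H₁ + f H₂) :=
    add_le_add (max_le le_self_add le_add_self) h1
  calc 1000 * (max (f H₁) (f H₂) + 1) ≤ 1000 * ((f H₁ + f H₂) + (f H₁ + f H₂)) := by gcongr
    _ = 2000 * (f H₁ + f H₂) := by ring

end Pool.Agent.Results.MP_14fa4b_co.UnionBound
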